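import Pool.Agent.helper26.IM.SpecA

/-!
# im:NFG, fullness over algebraically closed fields is geometric
-/

set_option autoImplicit false

open Finset

namespace Pool.Agent.helper26.IM

open Finset Pool.Agent.RRank Pool.Agent.helper35.MR

theorem NFG (hNSZ : NSZ_stmt) : NFG_stmt := by
  classical
  intro K L _ _ _ φ ι _ M hM
  obtain ⟨p, q, r, A, B, C, s, t, u, hcard, hA, hB, hC, hev⟩ := hM
  letI : Algebra K L := φ.toAlgebra
  have hφ : ∀ x, algebraMap K L x = φ x := fun x => rfl
  set S : Set L := (Set.range fun x : Fin p × ι => A x.1 x.2) ∪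
    ((Set.range fun x : Fin q × ι => B x.1 x.2) ∪ (Set.range fun x : Fin r × ι => C x.1 x.2)) with hS
  have hSfin : S.Finite := (Set.finite_range _).union ((Set.finite_range _).union (Set.finite_range _))
  have hfg : (Algebra.adjoin K S).FG := by
    rw [Subalgebra.fg_def]
    exact ⟨S, hSfin, rfl⟩
  have hft : Algebra.FiniteType K (Algebra.adjoin K S) := (Subalgebra.fg_iff_finiteType _).1 hfg
  obtain ⟨h⟩ := hNSZ K (Algebra.adjoin K S)
  have mA : ∀ a i, A a i ∈ Algebra.adjoin K S := fun a i =>
    Algebra.subset_adjoin (Or.inl ⟨(a, i), rfl⟩)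
  have mB : ∀ a i, B a i ∈ Algebra.adjoin K S := fun a i =>
    Algebra.subset_adjoin (Or.inr (Or.inl ⟨(a, i), rfl⟩))
  have mC : ∀ a i, C a i ∈ Algebra.adjoin K S := fun a i =>
    Algebra.subset_adjoin (Or.inr (Or.inr ⟨(a, i), rfl⟩))
  refine ⟨p, q, r, fun a i => h ⟨A a i, mA a i⟩, fun a i => h ⟨B a i, mB a i⟩,
    fun a i => h ⟨C a i, mC a i⟩, s, t, u, hcard, ?_, ?_, ?_, ?_⟩
  · intro a b
    have e : (⟨A a (s b), mA a (s b)⟩ : Algebra.adjoin K S) = if a = b then 1 else 0 := by
      apply Subtype.ext
      show A a (s b) = _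
      rw [hA]
      split_ifs <;> rfl
    dsimp only
    rw [e]
    split_ifs
    · exact map_one h
    · exact map_zero h
  · intro a b
    have e : (⟨B a (t b), mB a (t b)⟩ : Algebra.adjoin K S) = if a = b then 1 else 0 := by
      apply Subtype.ext
      show B a (t b) = _
      rw [hB]
      split_ifs <;> rfl
    dsimp only
    rw [e]
    split_ifs
    · exact map_one h
    · exact map_zero h
  · intro a b
    have e : (⟨C a (u b), mC a (u b)⟩ : Algebra.adjoin K S) = if a = b then 1 else 0 := by
      apply Subtype.ext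
      show C a (u b) = _
      rw [hC]
      split_ifs <;> rfl
    dsimp only
    rw [e]
    split_ifs
    · exact map_one h
    · exact map_zero h
  · intro a b c
    have e : (∑ i, ∑ j, ∑ k, algebraMap K (Algebra.adjoin K S) (M i j k) *
        ((⟨A a i, mA a i⟩ : Algebra.adjoin K S) * ⟨B b j, mB b j⟩ * ⟨C c k, mC c k⟩)) = 0 := by
      apply Subtype.ext
      have e1 := hev a b c
      unfold ev3 at e1
      rw [ZeroMemClass.coe_zero, ← e1]
      push_cast
      rfl
    have e2 := congrArg h e
    rw [map_zero, map_sum] at e2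
    unfold ev3
    rw [← e2]
    apply Finset.sum_congr rfl
    intro i _
    rw [map_sum]
    apply Finset.sum_congr rfl
    intro j _
    rw [map_sum]
    apply Finset.sum_congr rfl
    intro k _
    rw [map_mul, map_mul, map_mul, AlgHom.commutes]
    rfl

end Pool.Agent.helper26.IM
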