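import Pool.Agent.helper26.IM.SpecA

/-!
# im:NFV, specialisation of certificates at a valuation ring
-/

set_option autoImplicit false

open Finset

namespace Pool.Agent.helper26.IM

open Finset Pool.Agent.RRank Pool.Agent.helper35.MR

/-- Normalisation of a certificate: entries in the valuation ring. -/
theorem NFV_norm {L : Type} [Field L] (O : ValuationSubring L) {ι : Type} [Finite ι] {p : ℕ}
    (A : Fin p → ι → L) (s : Fin p → ι) (hA : ∀ a b, A a (s b) = if a = b then 1 else 0) :
    ∃ (A' : Fin p → ι → O) (s' : Fin p → ι) (c : Fin p → Fin p → L),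
      (∀ a b, A' a (s' b) = if a = b then 1 else 0) ∧
      ∀ a i, (A' a i : L) = ∑ b, c a b * A b i := by
  classical
  have hne : Nonempty (Fin p → ι) := ⟨s⟩
  let Am : Matrix (Fin p) ι L := Matrix.of A
  obtain ⟨s', hs'⟩ := Finite.exists_max (fun f : Fin p → ι => O.valuation (Am.submatrix id f).det)
  set D : Matrix (Fin p) (Fin p) L := Am.submatrix id s' with hD
  have h1 : Am.submatrix id s = 1 := by
    ext a b
    show A a (s b) = _
    rw [hA, Matrix.one_apply]
  have h2 : O.valuation D.det ≠ 0 := by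
    have := hs' s
    simp only [h1, Matrix.det_one, map_one] at this
    intro h
    rw [h] at this
    exact absurd this (not_le.2 zero_lt_one)
  have hdet : D.det ≠ 0 := by
    intro h
    rw [h, map_zero] at h2
    exact h2 rfl
  have hunit : IsUnit D.det := isUnit_iff_ne_zero.2 hdet
  have hcol : ∀ a i, (D⁻¹ * Am) a i = D.det⁻¹ * (Am.submatrix id (Function.update s' a i)).det := by
    intro a i
    have e1 : (D⁻¹ * Am) a i = (D⁻¹.mulVec (fun b => A b i)) a := rfl
    have e2 : D⁻¹.mulVec (fun b => A b i) = D.det⁻¹ • Matrix.cramer D (fun b => A b i) := by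
      rw [Matrix.inv_def, Matrix.cramer_eq_adjugate_mulVec, Matrix.smul_mulVec,
        Ring.inverse_eq_inv']
    rw [e1, e2, Pi.smul_apply, smul_eq_mul, Matrix.cramer_apply]
    congr 2
    ext b j
    rw [Matrix.updateCol_apply, Matrix.submatrix_apply, Function.update_apply]
    by_cases hj : j = a
    · rw [if_pos hj, if_pos hj]
      rfl
    · rw [if_neg hj, if_neg hj]
      rfl
  have hmem : ∀ a i, (D⁻¹ * Am) a i ∈ O := by
    intro a i
    rw [← ValuationSubring.valuation_le_one_iff, hcol, map_mul, map_inv₀]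
    have := hs' (Function.update s' a i)
    calc (O.valuation D.det)⁻¹ * O.valuation (Am.submatrix id (Function.update s' a i)).det
        ≤ (O.valuation D.det)⁻¹ * O.valuation D.det := mul_le_mul_right this _
      _ = 1 := inv_mul_cancel₀ h2
  refine ⟨fun a i => ⟨(D⁻¹ * Am) a i, hmem a i⟩, s', fun a b => D⁻¹ a b, ?_, ?_⟩
  · intro a b
    apply Subtype.ext
    have e1 : (D⁻¹ * Am) a (s' b) = (D⁻¹ * D) a b := rfl
    show (D⁻¹ * Am) a (s' b) = _
    rw [e1, Matrix.nonsing_inv_mul _ hunit, Matrix.one_apply]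
    split_ifs <;> rfl
  · intro a i
    show (D⁻¹ * Am) a i = _
    rw [Matrix.mul_apply]
    rfl

theorem NFV_e1 {ι K : Type} [Fintype ι] [Field K] (M : ι → ι → ι → K) (u v w : ι → K) :
    ev3 M u v w = ∑ i, u i * ∑ j, ∑ k, M i j k * (v j * w k) := by
  unfold ev3
  apply Finset.sum_congr rfl
  intro i _
  rw [Finset.mul_sum]
  apply Finset.sum_congr rfl
  intro j _
  rw [Finset.mul_sum]
  apply Finset.sum_congr rfl
  intro k _
  ring

theorem NFV_e2 {ι K : Type} [Fintype ι] [Field K] (M : ι → ι → ι → K) (u v w : ι → K) :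
    ev3 M u v w = ∑ j, v j * ∑ i, ∑ k, M i j k * (u i * w k) := by
  unfold ev3
  rw [Finset.sum_comm]
  apply Finset.sum_congr rfl
  intro j _
  rw [Finset.mul_sum]
  apply Finset.sum_congr rfl
  intro i _
  rw [Finset.mul_sum]
  apply Finset.sum_congr rfl
  intro k _
  ring

theorem NFV_e3 {ι K : Type} [Fintype ι] [Field K] (M : ι → ι → ι → K) (u v w : ι → K) :
    ev3 M u v w = ∑ k, w k * ∑ i, ∑ j, M i j k * (u i * v j) := by
  unfold ev3
  have h1 : ∀ i, ∑ j, ∑ k, M i j k * (u i * v j * w k) = ∑ k, ∑ j, M i j k * (u i * v j * w k) :=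
    fun i => Finset.sum_comm
  simp only [h1]
  rw [Finset.sum_comm]
  apply Finset.sum_congr rfl
  intro k _
  rw [Finset.mul_sum]
  apply Finset.sum_congr rfl
  intro i _
  rw [Finset.mul_sum]
  apply Finset.sum_congr rfl
  intro j _
  ring

theorem NFV_lin {ι K : Type} [Fintype ι] [Field K] (S : ι → K) {p : ℕ} (c : Fin p → K)
    (A : Fin p → ι → K) (h : ∀ a, ∑ i, A a i * S i = 0) :
    ∑ i, (∑ a, c a * A a i) * S i = 0 := by
  have h1 : ∑ i, (∑ a, c a * A a i) * S i = ∑ a, c a * ∑ i, A a i * S i := by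
    simp only [Finset.mul_sum, Finset.sum_mul]
    rw [Finset.sum_comm]
    apply Finset.sum_congr rfl
    intro a _
    apply Finset.sum_congr rfl
    intro i _
    ring
  rw [h1]
  simp [h]

theorem NFV_ev {ι K : Type} [Fintype ι] [Field K] (M : ι → ι → ι → K) {p q r : ℕ} (a : Fin p → K)
    (b : Fin q → K) (c : Fin r → K) (A : Fin p → ι → K) (B : Fin q → ι → K) (C : Fin r → ι → K)
    (h : ∀ x y z, ev3 M (A x) (B y) (C z) = 0) :
    ev3 M (fun i => ∑ x, a x * A x i) (fun i => ∑ x, b x * B x i) (fun i => ∑ x, c x * C x i) = 0 := by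
  have h1 : ∀ y z, ev3 M (fun i => ∑ x, a x * A x i) (B y) (C z) = 0 := by
    intro y z
    rw [NFV_e1]
    apply NFV_lin
    intro x
    rw [← NFV_e1]
    exact h x y z
  have h2 : ∀ z, ev3 M (fun i => ∑ x, a x * A x i) (fun i => ∑ x, b x * B x i) (C z) = 0 := by
    intro z
    rw [NFV_e2]
    apply NFV_lin
    intro y
    rw [← NFV_e2]
    exact h1 y z
  rw [NFV_e3]
  apply NFV_lin
  intro z
  rw [← NFV_e3]
  exact h2 z

theorem NFV : NFV_stmt := by
  classical
  intro L _ O κ _ ρ ι _ M hM
  obtain ⟨p, q, r, A, B, C, s, t, u, hcard, hA, hB, hC, hev⟩ := hM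
  obtain ⟨A', s', a, hA', ha⟩ := NFV_norm O A s hA
  obtain ⟨B', t', b, hB', hb⟩ := NFV_norm O B t hB
  obtain ⟨C', u', c, hC', hc⟩ := NFV_norm O C u hC
  refine ⟨p, q, r, fun x i => ρ (A' x i), fun x i => ρ (B' x i), fun x i => ρ (C' x i), s', t', u',
    hcard, ?_, ?_, ?_, ?_⟩
  · intro x y
    dsimp only
    rw [hA']
    split_ifs
    · exact map_one ρ
    · exact map_zero ρ
  · intro x y
    dsimp only
    rw [hB']
    split_ifs
    · exact map_one ρ
    · exact map_zero ρ
  · intro x y
    dsimp only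
    rw [hC']
    split_ifs
    · exact map_one ρ
    · exact map_zero ρ
  · intro x y z
    have e1 := NFV_ev (fun i j k => (M i j k : L)) (a x) (b y) (c z) A B C hev
    have eA : (fun i => ∑ x', a x x' * A x' i) = fun i => (A' x i : L) := funext fun i => (ha x i).symm
    have eB : (fun i => ∑ x', b y x' * B x' i) = fun i => (B' y i : L) := funext fun i => (hb y i).symm
    have eC : (fun i => ∑ x', c z x' * C x' i) = fun i => (C' z i : L) := funext fun i => (hc z i).symm
    rw [eA, eB, eC] at e1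
    have e2 : (∑ i, ∑ j, ∑ k, M i j k * (A' x i * B' y j * C' z k) : O) = 0 := by
      apply Subtype.ext
      unfold ev3 at e1
      rw [ZeroMemClass.coe_zero, ← e1]
      push_cast
      rfl
    have e3 := congrArg ρ e2
    rw [map_zero] at e3
    unfold ev3
    rw [← e3]
    simp only [map_sum, map_mul]

end Pool.Agent.helper26.IM
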