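import Pool.Agent.helper26.IM.SpecA

/-!
# im:CV3, the two notions of slice decomposition
-/

set_option autoImplicit false

open Finset

namespace Pool.Agent.helper26.IM

open Finset Pool.Agent.RRank Pool.Agent.helper35.MR

theorem CV3_eta {Q : Fin 3 → Type} (x : (α : Fin 3) → Q α) : mk3 (x 0) (x 1) (x 2) = x := by
  funext α
  fin_cases α <;> rfl

theorem CV3_zero {X Y Z K : Type} [Field K] (r : ℕ) : S3 (fun (_ : X) (_ : Y) (_ : Z) => (0 : K)) r :=
  ⟨0, 0, 0, fun i => i.elim0, fun i => i.elim0, fun i => i.elim0, fun i => i.elim0, fun i => i.elim0,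
    fun i => i.elim0, Nat.zero_le _, fun x y z => by simp⟩

theorem CV3_sum {X Y Z K : Type} [Field K] : ∀ (r : ℕ) (F : Fin r → X → Y → Z → K),
    (∀ i, S3 (F i) 1) → S3 (fun x y z => ∑ i, F i x y z) r := by
  intro r
  induction r with
  | zero =>
    intro F _
    simp only [Finset.univ_eq_empty, Finset.sum_empty]
    exact CV3_zero 0
  | succ r ih =>
    intro F h
    have h1 := (ih (fun i => F i.castSucc) (fun i => h _)).add (h (Fin.last r))
    simp only [Fin.sum_univ_castSucc]
    exact h1

theorem CV3_one {K : Type} [Field K] {Q : Fin 3 → Type} (t : ((α : Fin 3) → Q α) → K)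
    (x0 : Q 0) (y0 : Q 1) (z0 : Q 2)
    (h : RankLEOne (slices 3) t) : S3 (fun (x : Q 0) (y : Q 1) (z : Q 2) => t (mk3 x y z)) 1 := by
  classical
  rw [slices_three] at h
  obtain ⟨I, h0, hne, f, g, hf, hg, ht⟩ := exists_mul_of_rankLEOne 0 h
  simp only [ht]
  by_cases h1 : (1 : Fin 3) ∈ I
  · have h2 : (2 : Fin 3) ∉ I := by
      intro h2
      obtain ⟨a, ha⟩ := hne
      rw [Finset.mem_compl] at ha
      fin_cases a
      · exact ha h0
      · exact ha h1
      · exact ha h2
    have e1 : ∀ (x : Q 0) (y : Q 1) (z : Q 2), f (mk3 x y z) = f (mk3 x y z0) := by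
      intro x y z
      apply hf
      intro i hi
      fin_cases i
      · rfl
      · rfl
      · exact absurd hi h2
    have e2 : ∀ (x : Q 0) (y : Q 1) (z : Q 2), g (mk3 x y z) = g (mk3 x0 y0 z) := by
      intro x y z
      apply hg
      intro i hi
      rw [Finset.mem_coe, Finset.mem_compl] at hi
      fin_cases i
      · exact absurd h0 hi
      · exact absurd h1 hi
      · rfl
    have := S3.slice3 (X := Q 0) (Y := Q 1) (Z := Q 2) (fun z => g (mk3 x0 y0 z))
      (fun x y => f (mk3 x y z0))
    convert this using 4 with x y z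
    rw [e1, e2, mul_comm]
  · by_cases h2 : (2 : Fin 3) ∈ I
    · have e1 : ∀ (x : Q 0) (y : Q 1) (z : Q 2), f (mk3 x y z) = f (mk3 x y0 z) := by
        intro x y z
        apply hf
        intro i hi
        fin_cases i
        · rfl
        · exact absurd hi h1
        · rfl
      have e2 : ∀ (x : Q 0) (y : Q 1) (z : Q 2), g (mk3 x y z) = g (mk3 x0 y z0) := by
        intro x y z
        apply hg
        intro i hi
        rw [Finset.mem_coe, Finset.mem_compl] at hi
        fin_cases i
        · exact absurd h0 hi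
        · rfl
        · exact absurd h2 hi
      have := S3.slice2 (X := Q 0) (Y := Q 1) (Z := Q 2) (fun y => g (mk3 x0 y z0))
        (fun x z => f (mk3 x y0 z))
      convert this using 4 with x y z
      rw [e1, e2, mul_comm]
    · have e1 : ∀ (x : Q 0) (y : Q 1) (z : Q 2), f (mk3 x y z) = f (mk3 x y0 z0) := by
        intro x y z
        apply hf
        intro i hi
        fin_cases i
        · rfl
        · exact absurd hi h1
        · exact absurd hi h2
      have e2 : ∀ (x : Q 0) (y : Q 1) (z : Q 2), g (mk3 x y z) = g (mk3 x0 y z) := by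
        intro x y z
        apply hg
        intro i hi
        rw [Finset.mem_coe, Finset.mem_compl] at hi
        fin_cases i
        · exact absurd h0 hi
        · rfl
        · rfl
      have := S3.slice1 (X := Q 0) (Y := Q 1) (Z := Q 2) (fun x => f (mk3 x y0 z0))
        (fun y z => g (mk3 x0 y z))
      convert this using 4 with x y z
      rw [e1, e2]

theorem CV3_mul {K : Type} [Field K] {Q : Fin 3 → Type} (I : Finset (Fin 3)) (h1 : I.Nonempty)
    (h2 : (Iᶜ).Nonempty) {f g : ((α : Fin 3) → Q α) → K}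
    (hf : ∀ x y : (α : Fin 3) → Q α, (∀ i ∈ I, x i = y i) → f x = f y)
    (hg : ∀ x y : (α : Fin 3) → Q α, (∀ i ∉ I, x i = y i) → g x = g y) :
    RankLEOne (slices 3) (fun x => f x * g x) := by
  rw [slices_three]
  apply rankLEOne_mul h1 h2
  · intro x y h
    exact hf x y (fun i hi => h i (Finset.mem_coe.2 hi))
  · intro x y h
    exact hg x y (fun i hi => h i (Finset.mem_coe.2 (Finset.mem_compl.2 hi)))

theorem CV3 : CV3_stmt := by
  classical
  intro K _ Q T r
  constructor
  · rintro ⟨r', hr', t, ht, hT⟩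
    by_cases hne : Nonempty (Q 0) ∧ Nonempty (Q 1) ∧ Nonempty (Q 2)
    · obtain ⟨⟨x0⟩, ⟨y0⟩, ⟨z0⟩⟩ := hne
      have h1 := CV3_sum r' (fun i (x : Q 0) (y : Q 1) (z : Q 2) => t i (mk3 x y z))
        (fun i => CV3_one (t i) x0 y0 z0 (ht i))
      have h2 : (fun (x : Q 0) (y : Q 1) (z : Q 2) => T (mk3 x y z)) =
          fun x y z => ∑ i, t i (mk3 x y z) := by
        funext x y z
        rw [hT]
      rw [h2]
      exact h1.mono hr'
    · have h1 : (fun (x : Q 0) (y : Q 1) (z : Q 2) => T (mk3 x y z)) = fun x y z => 0 := by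
        funext x y z
        exact absurd ⟨⟨x⟩, ⟨y⟩, ⟨z⟩⟩ hne
      rw [h1]
      exact CV3_zero r
  · rintro ⟨p, q, s, a, b, c, d, e, f, hr, h⟩
    refine ⟨p + q + s, hr, ?_⟩
    let F : (Fin p ⊕ Fin q) ⊕ Fin s → ((α : Fin 3) → Q α) → K := fun i x =>
      Sum.elim (Sum.elim (fun i => a i (x 0) * b i (x 1) (x 2)) (fun j => c j (x 1) * d j (x 0) (x 2)))
        (fun k => e k (x 2) * f k (x 0) (x 1)) i
    have hF : ∀ i, RankLEOne (slices 3) (F i) := by
      rintro ((i | j) | k)
      · refine CV3_mul {0} ⟨0, by simp⟩ ⟨1, by simp⟩ ?_ ?_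
        · intro x y hxy
          rw [hxy 0 (by simp)]
        · intro x y hxy
          rw [hxy 1 (by simp), hxy 2 (by simp)]
      · refine CV3_mul {1} ⟨1, by simp⟩ ⟨0, by simp⟩ ?_ ?_
        · intro x y hxy
          rw [hxy 1 (by simp)]
        · intro x y hxy
          rw [hxy 0 (by simp), hxy 2 (by simp)]
      · refine CV3_mul {2} ⟨2, by simp⟩ ⟨0, by simp⟩ ?_ ?_
        · intro x y hxy
          rw [hxy 2 (by simp)]
        · intro x y hxy
          rw [hxy 0 (by simp), hxy 1 (by simp)]
    have h1 := SumOf.of_finset (R := slices 3) (T := T) Finset.univ F (fun i _ => hF i) (by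
      intro x
      have := h (x 0) (x 1) (x 2)
      dsimp only at this
      rw [CV3_eta] at this
      rw [this, Fintype.sum_sum_type, Fintype.sum_sum_type]
      rfl)
    rw [Finset.card_univ] at h1
    simpa using h1

end Pool.Agent.helper26.IM
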